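import Pool.Agent.H21.HomogMain

/-!
MP_3d7de8_lc: free nilpotent and free solvable associative algebras of finite rank over a field
are logically homogeneous.
-/

namespace Pool.Agent.Results.MP_3d7de8_lc.Homog

open Pool.Agent.H21.Homog

universe u

theorem result :
    (∀ (K : Type u) [Field K] (n r : ℕ), 1 ≤ n → 1 ≤ r →
      ∀ (H : Type u) [NonUnitalRing H] [Module K H] [IsScalarTower K H H] [SMulCommClass K H H]
        (g : Fin r → H), IsFreeNilpotent K n r H g → LogicallyHomogeneous K H) ∧
    (∀ (K : Type u) [Field K] (n r : ℕ), 1 ≤ n → 1 ≤ r →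
      ∀ (H : Type u) [NonUnitalRing H] [Module K H] [IsScalarTower K H H] [SMulCommClass K H H]
        (g : Fin r → H), IsFreeSolvable K n r H g → LogicallyHomogeneous K H) :=
  ⟨fun _ _ _ _ hn hr _ _ _ _ _ _ hf => homog_nilp hr hn hf,
    fun _ _ _ _ _ hr _ _ _ _ _ _ hf => homog_solv hr hf⟩

end Pool.Agent.Results.MP_3d7de8_lc.Homog
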